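import Pool.Agent.R719.FB.Aff
import Pool.Agent.R719.FB.Num2

open Pool.Agent.R719.FB

namespace Pool.Agent.Results.MP_9530fa_al.FewCharactersFaithful

/-- For every constant `C > 0` there are arbitrarily large primes `p` and finite groups `G` such that
`p` divides `|G : F(G)|` and `G` has a faithful `p`-block `B` of positive defect with
`k(B) < C p / log_2 p`. (The case `C = 1` is the negation of the question.) -/
theorem result (C : ℝ) (hC : 0 < C) (N : ℕ) :
    ∃ p : ℕ, p.Prime ∧ N < p ∧ ∃ (G : Type) (_ : Group G) (_ : Finite G),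
      p ∣ (fitting G).index ∧
      ∀ M : Ideal (integralClosure ℤ ℂ), M.IsMaximal → (p : integralClosure ℤ ℂ) ∈ M →
        ∃ B : Set (G → ℂ), IsBlock M B ∧ IsFaithful B ∧ HasPositiveDefect p B ∧ B.Finite ∧
          (Nat.card B : ℝ) < C * (p / Real.logb 2 p) := by
  obtain ⟨p, d, hp, hp2, hN, hd, hd1, hlt⟩ := exists_p_d C hC N
  obtain ⟨G, i1, i2, h1, h2⟩ := main_U hp hp2 hd hd1
  refine ⟨p, hp, hN, G, i1, i2, h1, fun M hM hpM => ?_⟩
  obtain ⟨B, h3, h4, h5, h6, h7⟩ := h2 M hM hpM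
  refine ⟨B, h3, h5, h4, h6, lt_of_le_of_lt ?_ hlt⟩
  exact_mod_cast h7

end Pool.Agent.Results.MP_9530fa_al.FewCharactersFaithful
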